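import Pool.Agent.W837.KKS.Mix

/-!
Bessel's inequality for random products, Hilbert space version.
-/

set_option autoImplicit false
set_option linter.unusedSectionVars false

open scoped InnerProductSpace
open Finset

namespace Pool.Agent.W837.KKS

open H730HC (IsMean Bdd nu Er ulim)

theorem bdd_add {I : Type*} {f g : I → ℝ} (hf : Bdd f) (hg : Bdd g) :
    Bdd (fun i => f i + g i) := by
  obtain ⟨C, hC⟩ := hf
  obtain ⟨D, hD⟩ := hg
  exact ⟨C + D, fun i => (abs_add_le _ _).trans (add_le_add (hC i) (hD i))⟩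

theorem bdd_smul {I : Type*} {f : I → ℝ} (c : ℝ) (hf : Bdd f) :
    Bdd (fun i => c * f i) := by
  obtain ⟨C, hC⟩ := hf
  exact ⟨|c| * C, fun i => by rw [abs_mul]; exact mul_le_mul_of_nonneg_left (hC i) (abs_nonneg _)⟩

theorem bdd_const {I : Type*} (c : ℝ) : Bdd (fun _ : I => c) := ⟨|c|, fun _ => le_refl _⟩

theorem bdd_sum {I : Type*} {ι : Type*} (s : Finset ι) (f : ι → I → ℝ)
    (hf : ∀ j ∈ s, Bdd (f j)) : Bdd (fun i => ∑ j ∈ s, f j i) := by
  classical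
  induction s using Finset.induction_on with
  | empty => simpa using bdd_const (I := I) 0
  | insert a s ha ih =>
    have h1 := bdd_add (hf a (Finset.mem_insert_self a s))
      (ih (fun j hj => hf j (Finset.mem_insert_of_mem hj)))
    simpa [Finset.sum_insert ha] using h1

theorem mean_sum {I : Type*} {m : (I → ℝ) → ℝ} (hm : IsMean m) {ι : Type*} (s : Finset ι)
    (f : ι → I → ℝ) (hf : ∀ j ∈ s, Bdd (f j)) :
    m (fun i => ∑ j ∈ s, f j i) = ∑ j ∈ s, m (f j) := by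
  classical
  induction s using Finset.induction_on with
  | empty => simpa using hm.const 0
  | insert a s ha ih =>
    have h1 := hm.add (f a) (fun i => ∑ j ∈ s, f j i) (hf a (Finset.mem_insert_self a s))
      (bdd_sum s f (fun j hj => hf j (Finset.mem_insert_of_mem hj)))
    rw [Finset.sum_insert ha, ← ih (fun j hj => hf j (Finset.mem_insert_of_mem hj)), ← h1]
    congr 1
    funext i
    rw [Finset.sum_insert ha]

theorem mean_lin {I : Type*} {m : (I → ℝ) → ℝ} (hm : IsMean m) {f g h s : I → ℝ}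
    (hf : Bdd f) (hg : Bdd g) (hh : Bdd h) (hs : Bdd s) :
    m (fun i => f i - 2 * g i + (2 * h i + s i)) = m f - 2 * m g + (2 * m h + m s) := by
  have e : (fun i => f i - 2 * g i + (2 * h i + s i))
      = (fun i => (f i + (-2) * g i) + (2 * h i + s i)) := by funext i; ring
  rw [e, hm.add (fun i => f i + (-2) * g i) (fun i => 2 * h i + s i)
    (bdd_add hf (bdd_smul _ hg)) (bdd_add (bdd_smul _ hh) hs),
    hm.add f (fun i => (-2) * g i) hf (bdd_smul _ hg),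
    hm.add (fun i => 2 * h i) s (bdd_smul _ hh) hs, hm.smul _ g hg, hm.smul _ h hh]
  ring

/-- average over the letter and the conjugating element -/
noncomputable def av {U : Type*} (G : Finset U) (m0 : (U → ℝ) → ℝ) (f : U × U → ℝ) : ℝ :=
  (∑ g ∈ G, m0 (fun v => f (g, v))) / (G.card : ℝ)

theorem av_isMean {U : Type*} (G : Finset U) (hG : G.Nonempty) (m0 : (U → ℝ) → ℝ)
    (hm0 : IsMean m0) : IsMean (av G m0) := by
  have hN : (0 : ℝ) < (G.card : ℝ) := by exact_mod_cast Finset.card_pos.2 hG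
  have hb : ∀ (f : U × U → ℝ), Bdd f → ∀ g, Bdd (fun v => f (g, v)) := by
    rintro f ⟨C, hC⟩ g
    exact ⟨C, fun v => hC (g, v)⟩
  refine ⟨?_, ?_, ?_, ?_⟩
  · intro f g hf hg
    unfold av
    rw [← add_div, ← Finset.sum_add_distrib]
    congr 1
    exact Finset.sum_congr rfl fun x _ => hm0.add _ _ (hb f hf x) (hb g hg x)
  · intro c f hf
    unfold av
    rw [← mul_div_assoc, Finset.mul_sum]
    congr 1
    exact Finset.sum_congr rfl fun x _ => hm0.smul _ _ (hb f hf x)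
  · intro f g hf hg hfg
    unfold av
    refine div_le_div_of_nonneg_right ?_ hN.le
    exact Finset.sum_le_sum fun x _ => hm0.mono _ _ (hb f hf x) (hb g hg x) fun v => hfg (x, v)
  · intro c
    unfold av
    rw [Finset.sum_congr rfl fun x _ => hm0.const c]
    rw [Finset.sum_const, nsmul_eq_mul]
    field_simp

variable {G K : Type} [Group G] [NormedAddCommGroup K] [InnerProductSpace ℂ K]

theorem bdd_sq {I : Type*} {X : I → K} {C : ℝ} (hX : ∀ i, ‖X i‖ ≤ C) :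
    Bdd (fun i => ‖X i‖ ^ 2) := by
  refine ⟨C ^ 2, fun i => ?_⟩
  rw [abs_of_nonneg (by positivity)]
  exact pow_le_pow_left₀ (norm_nonneg _) (hX i) 2

theorem bdd_ip2 {I : Type*} {X Y : I → K} {C D : ℝ} (hX : ∀ i, ‖X i‖ ≤ C) (hY : ∀ i, ‖Y i‖ ≤ D) :
    Bdd (fun i => ip (X i) (Y i)) := by
  refine ⟨C * D, fun i => (abs_ip_le _ _).trans ?_⟩
  exact mul_le_mul (hX i) (hY i) (norm_nonneg _) ((norm_nonneg _).trans (hX i))

theorem pe_le' [CompleteSpace K] (π : G →* (K →L[ℂ] K)) {w : K} {C : ℝ} (h : ‖w‖ ≤ C) :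
    ‖pe π w‖ ≤ C := (pe_le π w).trans h

/-- Jensen's inequality -/
theorem jensen [CompleteSpace K] (π : G →* (K →L[ℂ] K)) {I : Type} {m : (I → ℝ) → ℝ}
    (hm : IsMean m) {X : I → K} {C : ℝ} (hX : ∀ i, ‖X i‖ ≤ C) {x : K} (hx : Bar m X x) :
    ‖pe π x‖ ^ 2 ≤ m (fun i => ‖pe π (X i)‖ ^ 2) := by
  have h1 : ‖pe π x‖ ^ 2 = m (fun i => ip (pe π x) (X i)) := by
    rw [← hx, pe_self]
  have hb1 : Bdd (fun i => ip (pe π x) (X i)) := bdd_ip hX _
  have hb2 : Bdd (fun i => ‖pe π (X i)‖ ^ 2) := bdd_sq fun i => pe_le' π (hX i)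
  have h2 : ∀ i, ip (pe π x) (X i) ≤ (1 / 2) * ‖pe π x‖ ^ 2 + (1 / 2) * ‖pe π (X i)‖ ^ 2 := by
    intro i
    have h3 : ip (pe π x) (X i) = ip (pe π x) (pe π (X i)) := by
      have : X i = pe π (X i) + PF π (X i) := by unfold pe; abel
      conv_lhs => rw [this]
      rw [ip_add_right, pe_orth, add_zero]
    rw [h3]
    have h4 := norm_sub_sq' (pe π x) (pe π (X i))
    have h5 : 0 ≤ ‖pe π x - pe π (X i)‖ ^ 2 := by positivity
    linarith
  have h3 := hm.mono _ (fun i => (1 / 2) * ‖pe π x‖ ^ 2 + (1 / 2) * ‖pe π (X i)‖ ^ 2) hb1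
    (bdd_add (bdd_const _) (bdd_smul _ hb2)) h2
  rw [hm.add (fun _ => (1 / 2) * ‖pe π x‖ ^ 2) (fun i => (1 / 2) * ‖pe π (X i)‖ ^ 2)
    (bdd_const _) (bdd_smul _ hb2), hm.const, hm.smul _ _ hb2, ← h1] at h3
  linarith

section
variable [CompleteSpace K] (π : G →* (K →L[ℂ] K)) (hπ : ∀ g v, ‖π g v‖ = ‖v‖)
include hπ

/-- Bessel's inequality -/
theorem bessel (m0 : (G → ℝ) → ℝ) (hm0 : IsMean m0)
    (hmix : ∀ c w : K, m0 (fun v => ip c (π v w)) = ip c (PF π w))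
    (F : Finset G) (hF : F.Nonempty) (r : ℕ) :
    ∀ (C : ℝ) (Z : G → K), (∀ g, ‖Z g‖ ≤ C) → ∀ c : K,
      ∑ k ∈ range r, (∑ g ∈ F, ‖pe π (VE (Er F m0 r k)
        (fun p => π p.1⁻¹ (Z (p.1 * g * p.2))))‖ ^ 2) / (F.card : ℝ)
      ≤ nu F m0 r (fun A => ‖Z A - c‖ ^ 2) := by
  have hN : (0 : ℝ) < (F.card : ℝ) := by exact_mod_cast Finset.card_pos.2 hF
  induction r with
  | zero =>
    intro C Z hZ c
    simp [nu]
  | succ r ih =>
    intro C Z hZ c
    set y : G → K := fun g => VE (Er F m0 (r + 1) 0)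
      (fun p => π p.1⁻¹ (Z (p.1 * g * p.2))) with hy
    set w : G → K := fun g => pe π (y g) with hw
    have hZb : ∀ (p A : G), ‖π p⁻¹ (Z A)‖ ≤ C := by
      intro p A
      rw [hπ]
      exact hZ A
    set Z' : G × G → G → K := fun q A =>
      π (q.2 * q.1 * q.2⁻¹)⁻¹ (Z ((q.2 * q.1 * q.2⁻¹) * A)) with hZ'
    set b : G × G → K := fun q => π q.2 (w q.1) with hb
    set c' : G × G → K := fun q => π (q.2 * q.1 * q.2⁻¹)⁻¹ (c + b q) with hc'
    have hZ'b : ∀ q A, ‖Z' q A‖ ≤ C := fun q A => hZb _ _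
    set X : ℕ → G → G × G → K := fun k g' q =>
      VE (Er F m0 r k) (fun p => π p.1⁻¹ (Z' q (p.1 * g' * p.2))) with hX
    have hZ'bb : ∀ q (p A : G), ‖π p⁻¹ (Z' q A)‖ ≤ C := by
      intro q p A
      rw [hπ]
      exact hZ'b q A
    have hXbar : ∀ k g' q, Bar (Er F m0 r k) (fun p => π p.1⁻¹ (Z' q (p.1 * g' * p.2)))
        (X k g' q) := fun k g' q =>
      VE_bar (H730HC.Er_isMean F hF m0 hm0 r k) (fun p => hZ'bb q p.1 _)
    have hXb : ∀ k g' q, ‖X k g' q‖ ≤ C := fun k g' q =>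
      (hXbar k g' q).norm_le (H730HC.Er_isMean F hF m0 hm0 r k) (fun p => hZ'bb q p.1 _)
    have hav := av_isMean F hF m0 hm0
    have h1 : ∀ q, ∑ k ∈ range r, (∑ g' ∈ F, ‖pe π (X k g' q)‖ ^ 2) / (F.card : ℝ)
        ≤ nu F m0 r (fun A => ‖Z' q A - c' q‖ ^ 2) :=
      fun q => ih C (Z' q) (hZ'b q) (c' q)
    have h2 : ∀ k g', ‖pe π (VE (Er F m0 (r + 1) (k + 1))
        (fun p => π p.1⁻¹ (Z (p.1 * g' * p.2))))‖ ^ 2
        ≤ av F m0 (fun q => ‖pe π (X k g' q)‖ ^ 2) := by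
      intro k g'
      refine jensen π hav (fun q => hXb k g' q) ?_
      intro a
      rw [VE_bar (H730HC.Er_isMean F hF m0 hm0 (r + 1) (k + 1)) (fun p => hZb p.1 _) a]
      have h3 : ∀ q, ip a (X k g' q) = Er F m0 r k (fun p =>
          ip a (π p.1⁻¹ (Z' q (p.1 * g' * p.2)))) := fun q => hXbar k g' q a
      simp only [h3]
      show (∑ g ∈ F, m0 (fun v => Er F m0 r k (fun p =>
          ip a (π (v * g * v⁻¹ * p.1)⁻¹ (Z (v * g * v⁻¹ * p.1 * g' * p.2)))))) / (F.card : ℝ)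
        = (∑ g ∈ F, m0 (fun v => Er F m0 r k (fun p =>
          ip a (π p.1⁻¹ (Z' (g, v) (p.1 * g' * p.2)))))) / (F.card : ℝ)
      congr 1
      refine Finset.sum_congr rfl fun g _ => ?_
      congr 1
      funext v
      congr 1
      funext p
      congr 1
      simp only [hZ']
      rw [_root_.mul_inv_rev (v * g * v⁻¹) p.1, map_mul π p.1⁻¹, mul_apply_eq_comp]
      simp only [mul_assoc]
    have hsum1 : ∀ k, Bdd (fun q => (∑ g' ∈ F, ‖pe π (X k g' q)‖ ^ 2) / (F.card : ℝ)) := by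
      intro k
      have h5 := bdd_smul ((F.card : ℝ)⁻¹) (bdd_sum F
        (fun g' q => ‖pe π (X k g' q)‖ ^ 2)
        (fun g' _ => bdd_sq fun q => pe_le' π (hXb k g' q)))
      have e : (fun q => (∑ g' ∈ F, ‖pe π (X k g' q)‖ ^ 2) / (F.card : ℝ))
        = (fun q => (F.card : ℝ)⁻¹ * ∑ g' ∈ F, ‖pe π (X k g' q)‖ ^ 2) := by
        funext q; rw [div_eq_inv_mul]
      rw [e]
      exact h5
    have h4 : ∑ k ∈ range r, (∑ g' ∈ F, ‖pe π (VE (Er F m0 (r + 1) (k + 1))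
        (fun p => π p.1⁻¹ (Z (p.1 * g' * p.2))))‖ ^ 2) / (F.card : ℝ)
        ≤ av F m0 (fun q => ∑ k ∈ range r,
            (∑ g' ∈ F, ‖pe π (X k g' q)‖ ^ 2) / (F.card : ℝ)) := by
      rw [mean_sum hav (range r)
        (fun k q => (∑ g' ∈ F, ‖pe π (X k g' q)‖ ^ 2) / (F.card : ℝ)) (fun k _ => hsum1 k)]
      refine Finset.sum_le_sum fun k _ => ?_
      have e : (fun q => (∑ g' ∈ F, ‖pe π (X k g' q)‖ ^ 2) / (F.card : ℝ))
        = (fun q => (F.card : ℝ)⁻¹ * ∑ g' ∈ F, ‖pe π (X k g' q)‖ ^ 2) := by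
        funext q; rw [div_eq_inv_mul]
      rw [e, hav.smul _ (fun q => ∑ g' ∈ F, ‖pe π (X k g' q)‖ ^ 2)
        (bdd_sum F (fun g' q => ‖pe π (X k g' q)‖ ^ 2)
          (fun g' _ => bdd_sq fun q => pe_le' π (hXb k g' q))),
        mean_sum hav F (fun g' q => ‖pe π (X k g' q)‖ ^ 2)
          (fun g' _ => bdd_sq fun q => pe_le' π (hXb k g' q)), div_eq_inv_mul]
      exact mul_le_mul_of_nonneg_left (Finset.sum_le_sum fun g' _ => h2 k g')
        (inv_nonneg.2 hN.le)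
    have hnu := H730HC.nu_isMean F hF m0 hm0 r
    have hybar : ∀ g, Bar (Er F m0 (r + 1) 0) (fun p => π p.1⁻¹ (Z (p.1 * g * p.2))) (y g) :=
      fun g => VE_bar (H730HC.Er_isMean F hF m0 hm0 (r + 1) 0) (fun p => hZb p.1 _)
    have hyb : ∀ g, ‖y g‖ ≤ C := fun g =>
      (hybar g).norm_le (H730HC.Er_isMean F hF m0 hm0 (r + 1) 0) (fun p => hZb p.1 _)
    have hwb : ∀ g, ‖w g‖ ≤ C := fun g => pe_le' π (hyb g)
    have hbb : ∀ q, ‖b q‖ ≤ C := by
      intro q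
      simp only [hb]
      rw [hπ]
      exact hwb q.1
    have hC : 0 ≤ C := (norm_nonneg _).trans (hZ 1)
    have hZcb : ∀ A, ‖Z A - c‖ ≤ C + ‖c‖ := fun A =>
      (norm_sub_le _ _).trans (add_le_add (hZ A) le_rfl)
    -- expansion
    have h7 : ∀ q A, ‖Z' q A - c' q‖ ^ 2 = ‖Z ((q.2 * q.1 * q.2⁻¹) * A) - c‖ ^ 2
        - 2 * ip (b q) (Z ((q.2 * q.1 * q.2⁻¹) * A))
        + (2 * ip (b q) c + ‖w q.1‖ ^ 2) := by
      intro q A
      have e1 : Z' q A - c' q = π (q.2 * q.1 * q.2⁻¹)⁻¹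
          ((Z ((q.2 * q.1 * q.2⁻¹) * A) - c) - b q) := by
        simp only [hZ', hc']
        rw [← map_sub, sub_sub]
      have e2 : ‖b q‖ = ‖w q.1‖ := hπ q.2 (w q.1)
      rw [e1, hπ, norm_sub_sq' _ (b q), e2, ip_comm _ (b q), ip_sub_right]
      ring
    have h8 : ∀ q, nu F m0 r (fun A => ‖Z' q A - c' q‖ ^ 2)
        = nu F m0 r (fun A => ‖Z ((q.2 * q.1 * q.2⁻¹) * A) - c‖ ^ 2)
        - 2 * nu F m0 r (fun A => ip (b q) (Z ((q.2 * q.1 * q.2⁻¹) * A)))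
        + (2 * ip (b q) c + ‖w q.1‖ ^ 2) := by
      intro q
      have e1 : (fun A => ‖Z' q A - c' q‖ ^ 2) = (fun A => ‖Z ((q.2 * q.1 * q.2⁻¹) * A) - c‖ ^ 2
        - 2 * ip (b q) (Z ((q.2 * q.1 * q.2⁻¹) * A))
        + (2 * ip (b q) c + ‖w q.1‖ ^ 2)) := funext (h7 q)
      rw [e1, mean_lin hnu (f := fun A => ‖Z ((q.2 * q.1 * q.2⁻¹) * A) - c‖ ^ 2)
        (g := fun A => ip (b q) (Z ((q.2 * q.1 * q.2⁻¹) * A)))
        (h := fun _ => ip (b q) c) (s := fun _ => ‖w q.1‖ ^ 2)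
        (bdd_sq (fun A => hZcb _)) (bdd_ip (fun A => hZ _) _)
        (bdd_const _) (bdd_const _), hnu.const, hnu.const]
    have h9 : av F m0 (fun q => nu F m0 r (fun A => ‖Z' q A - c' q‖ ^ 2))
        = nu F m0 (r + 1) (fun A => ‖Z A - c‖ ^ 2) - (∑ g ∈ F, ‖w g‖ ^ 2) / (F.card : ℝ) := by
      have e1 : (fun q => nu F m0 r (fun A => ‖Z' q A - c' q‖ ^ 2)) = (fun q =>
        nu F m0 r (fun A => ‖Z ((q.2 * q.1 * q.2⁻¹) * A) - c‖ ^ 2)
        - 2 * nu F m0 r (fun A => ip (b q) (Z ((q.2 * q.1 * q.2⁻¹) * A)))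
        + (2 * ip (b q) c + ‖w q.1‖ ^ 2)) := funext h8
      have b1 : Bdd (fun q : G × G =>
          nu F m0 r (fun A => ‖Z ((q.2 * q.1 * q.2⁻¹) * A) - c‖ ^ 2)) := by
        refine ⟨(C + ‖c‖) ^ 2, fun q => H730HC.T08_mean_le hnu fun A => ?_⟩
        rw [abs_of_nonneg (by positivity)]
        exact pow_le_pow_left₀ (norm_nonneg _) (hZcb _) 2
      have b2 : Bdd (fun q : G × G =>
          nu F m0 r (fun A => ip (b q) (Z ((q.2 * q.1 * q.2⁻¹) * A)))) :=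
        ⟨C * C, fun q => H730HC.T08_mean_le hnu fun A => (abs_ip_le _ _).trans
          (mul_le_mul (hbb q) (hZ _) (norm_nonneg _) hC)⟩
      have b3 : Bdd (fun q : G × G => ip (b q) c) :=
        bdd_ip2 hbb (fun _ => le_refl ‖c‖)
      have b4 : Bdd (fun q : G × G => ‖w q.1‖ ^ 2) :=
        bdd_sq (fun q => hwb q.1)
      rw [e1, mean_lin hav b1 b2 b3 b4]
      have v1 : av F m0 (fun q : G × G =>
          nu F m0 r (fun A => ‖Z ((q.2 * q.1 * q.2⁻¹) * A) - c‖ ^ 2))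
          = nu F m0 (r + 1) (fun A => ‖Z A - c‖ ^ 2) := rfl
      have v2 : av F m0 (fun q : G × G =>
          nu F m0 r (fun A => ip (b q) (Z ((q.2 * q.1 * q.2⁻¹) * A))))
          = (∑ g ∈ F, ‖w g‖ ^ 2) / (F.card : ℝ) := by
        unfold av
        congr 1
        refine Finset.sum_congr rfl fun g _ => ?_
        rw [← pe_self π (y g), hybar g]
        show m0 (fun v => nu F m0 r (fun A => ip (b (g, v)) (Z ((v * g * v⁻¹) * A))))
          = m0 (fun v => nu F m0 r (fun A =>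
            ip (pe π (y g)) (π v⁻¹ (Z (v * g * (v⁻¹ * A))))))
        congr 1
        funext v
        congr 1
        funext A
        simp only [hb, hw]
        rw [ip_inv π hπ v⁻¹, inv_inv, ← mul_assoc (v * g) v⁻¹ A]
      have v3 : av F m0 (fun q : G × G => ip (b q) c) = 0 := by
        unfold av
        rw [div_eq_zero_iff]
        left
        refine Finset.sum_eq_zero fun g _ => ?_
        have e2 : (fun v : G => ip (b (g, v)) c) = (fun v : G => ip c (π v (w g))) := by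
          funext v
          exact ip_comm _ _
        rw [e2, hmix, hw]
        simp only
        rw [PF_pe, ip_zero_right]
      have v4 : av F m0 (fun q : G × G => ‖w q.1‖ ^ 2)
          = (∑ g ∈ F, ‖w g‖ ^ 2) / (F.card : ℝ) := by
        unfold av
        congr 1
        exact Finset.sum_congr rfl fun g _ => hm0.const (‖w g‖ ^ 2)
      rw [v1, v2, v3, v4]
      ring
    have h10 : av F m0 (fun q => ∑ k ∈ range r,
            (∑ g' ∈ F, ‖pe π (X k g' q)‖ ^ 2) / (F.card : ℝ))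
        ≤ av F m0 (fun q => nu F m0 r (fun A => ‖Z' q A - c' q‖ ^ 2)) := by
      refine hav.mono _ _ (bdd_sum (range r)
        (fun k q => (∑ g' ∈ F, ‖pe π (X k g' q)‖ ^ 2) / (F.card : ℝ)) (fun k _ => hsum1 k))
        ?_ h1
      refine ⟨(C + (‖c‖ + C)) ^ 2, fun q => H730HC.T08_mean_le hnu fun A => ?_⟩
      rw [abs_of_nonneg (by positivity)]
      refine pow_le_pow_left₀ (norm_nonneg _) ?_ 2
      refine (norm_sub_le _ _).trans (add_le_add (hZ'b q A) ?_)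
      simp only [hc']
      rw [hπ]
      exact (norm_add_le _ _).trans (add_le_add le_rfl (hbb q))
    rw [Finset.sum_range_succ']
    have h11 : (∑ g ∈ F, ‖pe π (VE (Er F m0 (r + 1) 0)
        (fun p => π p.1⁻¹ (Z (p.1 * g * p.2))))‖ ^ 2) / (F.card : ℝ)
        = (∑ g ∈ F, ‖w g‖ ^ 2) / (F.card : ℝ) := rfl
    rw [h11]
    linarith

/-- finitely many letters, approximately -/
theorem sm_finite (C : ℝ) (Z : G → K) (hZ : ∀ g, ‖Z g‖ ≤ C) (F : Finset G) (ε : ℝ) (hε : 0 < ε) :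
    ∃ m : (G × G → ℝ) → ℝ, IsMean m ∧ ∀ g ∈ F,
      ‖pe π (VE m (fun p => π p.1⁻¹ (Z (p.1 * g * p.2))))‖ ^ 2 ≤ ε := by
  rcases F.eq_empty_or_nonempty with rfl | hF
  · refine ⟨fun f => f (1, 1), ⟨fun _ _ _ _ => rfl, fun _ _ _ => rfl, fun _ _ _ _ h => h _,
      fun _ => rfl⟩, fun g hg => absurd hg (Finset.notMem_empty g)⟩
  · obtain ⟨m0, hm0, hmix⟩ := exists_mix π hπ
    have hC0 : 0 ≤ C := (norm_nonneg _).trans (hZ 1)
    have hcard : (0 : ℝ) < (F.card : ℝ) := by exact_mod_cast Finset.card_pos.mpr hF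
    obtain ⟨r, hr⟩ := exists_nat_gt (C ^ 2 * F.card / ε)
    have hr0 : (0 : ℝ) < (r : ℝ) := lt_of_le_of_lt (by positivity) hr
    have hb := bessel π hπ m0 hm0 hmix F hF r C Z hZ 0
    have hnu : nu F m0 r (fun A => ‖Z A - 0‖ ^ 2) ≤ C ^ 2 := by
      have hle : ∀ A, ‖Z A - 0‖ ^ 2 ≤ C ^ 2 := by
        intro A
        rw [sub_zero]
        exact pow_le_pow_left₀ (norm_nonneg _) (hZ A) 2
      have hnn : ∀ A, 0 ≤ ‖Z A - 0‖ ^ 2 := fun A => by positivity
      have hI := H730HC.nu_isMean F hF m0 hm0 r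
      have h := hI.mono (fun A => ‖Z A - 0‖ ^ 2) (fun _ => C ^ 2)
        ⟨C ^ 2, fun A => by rw [abs_of_nonneg (hnn A)]; exact hle A⟩
        ⟨|C ^ 2|, fun _ => le_rfl⟩ hle
      rwa [hI.const] at h
    by_contra hcon
    push Not at hcon
    have hk : ∀ k ∈ range r, ε / (F.card : ℝ) < (∑ g ∈ F, ‖pe π (VE (Er F m0 r k)
        (fun p => π p.1⁻¹ (Z (p.1 * g * p.2))))‖ ^ 2) / (F.card : ℝ) := by
      intro k _
      obtain ⟨g, hg, hlt⟩ := hcon (Er F m0 r k) (H730HC.Er_isMean F hF m0 hm0 r k)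
      refine div_lt_div_of_pos_right (lt_of_lt_of_le hlt ?_) hcard
      exact Finset.single_le_sum (f := fun g => ‖pe π (VE (Er F m0 r k)
        (fun p => π p.1⁻¹ (Z (p.1 * g * p.2))))‖ ^ 2)
        (fun g _ => by positivity) hg
    have hsum : ∑ k ∈ range r, ε / (F.card : ℝ) ≤ ∑ k ∈ range r,
        (∑ g ∈ F, ‖pe π (VE (Er F m0 r k)
        (fun p => π p.1⁻¹ (Z (p.1 * g * p.2))))‖ ^ 2) / (F.card : ℝ) :=
      Finset.sum_le_sum fun k hk' => (hk k hk').le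
    rw [Finset.sum_const, Finset.card_range, nsmul_eq_mul] at hsum
    have h1 : (r : ℝ) * (ε / (F.card : ℝ)) ≤ C ^ 2 := (hsum.trans hb).trans hnu
    have h2 : C ^ 2 * F.card < r * ε := by
      rwa [div_lt_iff₀ hε] at hr
    have h3 : (r : ℝ) * ε ≤ C ^ 2 * F.card := by
      rw [mul_div_assoc', div_le_iff₀ hcard] at h1
      exact h1
    linarith

theorem sm_mean (C : ℝ) (Z : G → K) (hZ : ∀ g, ‖Z g‖ ≤ C) :
    ∃ m : (G × G → ℝ) → ℝ, IsMean m ∧ ∀ g : G,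
      pe π (VE m (fun p => π p.1⁻¹ (Z (p.1 * g * p.2)))) = 0 := by
  classical
  have hex : ∀ κ : Finset G × ℕ, ∃ m : (G × G → ℝ) → ℝ, IsMean m ∧
      ∀ g ∈ κ.1, ‖pe π (VE m (fun p => π p.1⁻¹ (Z (p.1 * g * p.2))))‖ ^ 2
        ≤ 1 / ((κ.2 : ℝ) + 1) := fun κ => sm_finite π hπ C Z hZ κ.1 _ (by positivity)
  choose mk hmk hmk2 using hex
  let F : Ultrafilter (Finset G × ℕ) := Ultrafilter.of Filter.atTop
  have hF : (F : Filter (Finset G × ℕ)) ≤ Filter.atTop := Ultrafilter.of_le _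
  have hm : IsMean (fun f => ulim F (fun k => mk k f)) := H730HC.ultra_isMean F mk hmk
  refine ⟨fun f => ulim F (fun k => mk k f), hm, ?_⟩
  intro g
  set f : G × G → K := fun p => π p.1⁻¹ (Z (p.1 * g * p.2)) with hf
  have hfC : ∀ p, ‖f p‖ ≤ C := fun p => by rw [hf]; simp only; rw [hπ]; exact hZ _
  set X : K := VE (fun f => ulim F (fun k => mk k f)) f with hX
  have hspec : Bar (fun f => ulim F (fun k => mk k f)) f X := VE_bar hm hfC
  have hbdd : Bdd (fun i => ip (pe π X) (f i)) := bdd_ip hfC _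
  have hlim := H730HC.ultra_tendsto F mk hmk _ hbdd
  have hval : ulim F (fun k => mk k (fun i => ip (pe π X) (f i))) = ‖pe π X‖ ^ 2 := by
    rw [← pe_self, hspec (pe π X)]
  rw [hval] at hlim
  have hbound : ∀ κ : Finset G × ℕ, g ∈ κ.1 →
      (mk κ (fun i => ip (pe π X) (f i))) ^ 2 ≤ 1 / ((κ.2 : ℝ) + 1) * ‖pe π X‖ ^ 2 := by
    intro κ hg
    have h1 : ip (pe π X) (VE (mk κ) f) = mk κ (fun i => ip (pe π X) (f i)) :=
      VE_bar (hmk κ) hfC _
    rw [← h1]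
    set Y : K := VE (mk κ) f with hY
    have h2 : ip (pe π X) Y = ip (pe π X) (pe π Y) := by
      have : Y = pe π Y + PF π Y := by unfold pe; abel
      conv_lhs => rw [this]
      rw [ip_add_right, pe_orth, add_zero]
    rw [h2, ← sq_abs]
    have h3 := abs_ip_le (pe π X) (pe π Y)
    have h4 : ‖pe π Y‖ ^ 2 ≤ 1 / ((κ.2 : ℝ) + 1) := hmk2 κ g hg
    calc |ip (pe π X) (pe π Y)| ^ 2 ≤ (‖pe π X‖ * ‖pe π Y‖) ^ 2 :=
          pow_le_pow_left₀ (abs_nonneg _) h3 2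
      _ = ‖pe π Y‖ ^ 2 * ‖pe π X‖ ^ 2 := by ring
      _ ≤ _ := mul_le_mul_of_nonneg_right h4 (by positivity)
  have hsmall : ∀ k0 : ℕ, (‖pe π X‖ ^ 2) ^ 2 ≤ 1 / ((k0 : ℝ) + 1) * ‖pe π X‖ ^ 2 := by
    intro k0
    have hev : ∀ᶠ κ : Finset G × ℕ in (F : Filter (Finset G × ℕ)),
        (mk κ (fun i => ip (pe π X) (f i))) ^ 2 ≤ 1 / ((k0 : ℝ) + 1) * ‖pe π X‖ ^ 2 := by
      apply hF
      filter_upwards [Filter.eventually_ge_atTop (({g} : Finset G), k0)] with κ hκ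
      have hg : g ∈ κ.1 := hκ.1 (Finset.mem_singleton_self g)
      refine le_trans (hbound κ hg) ?_
      apply mul_le_mul_of_nonneg_right _ (by positivity)
      apply one_div_le_one_div_of_le (by positivity)
      have : (k0 : ℝ) ≤ κ.2 := by exact_mod_cast hκ.2
      linarith
    exact le_of_tendsto (hlim.pow 2) hev
  have hzero : ‖pe π X‖ ^ 2 = 0 := by
    have h0 : 0 ≤ ‖pe π X‖ ^ 2 := by positivity
    by_contra hne
    have hpos : 0 < ‖pe π X‖ ^ 2 := lt_of_le_of_ne h0 (Ne.symm hne)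
    obtain ⟨k0, hk0⟩ := exists_nat_one_div_lt hpos
    have h1 := hsmall k0
    have h2 : 1 / ((k0 : ℝ) + 1) * ‖pe π X‖ ^ 2 < (‖pe π X‖ ^ 2) ^ 2 := by
      rw [pow_two (‖pe π X‖ ^ 2)]
      exact mul_lt_mul_of_pos_right hk0 hpos
    linarith
  exact norm_eq_zero.1 (pow_eq_zero_iff (two_ne_zero) |>.1 hzero)

end

/-- SM: invariance by random products. -/
theorem sm : Pool.Agent.W662.KKS.S_SM := by
  intro G K _ _ _ _ π Z C hπ hZ
  obtain ⟨m, hm, h⟩ := sm_mean π hπ C Z hZ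
  refine ⟨fun f => VE m f, VE_isVMean hm, fun g x => ?_⟩
  have h1 := h g
  unfold pe at h1
  rw [sub_eq_zero] at h1
  show π x (VE m (fun p => π p.1⁻¹ (Z (p.1 * g * p.2)))) =
    VE m (fun p => π p.1⁻¹ (Z (p.1 * g * p.2)))
  rw [h1]
  exact PF_fix π _ x

end Pool.Agent.W837.KKS

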