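import Mathlib
import Pool.Agent.W662.KKS.Stmts

/-!
The mean on pairs of unitary `3 × 3` matrices.
-/

set_option autoImplicit false
set_option linter.unusedSectionVars false

open scoped InnerProductSpace
open Finset

namespace Pool.Agent.W837.KKS

open Pool.Agent.W662.KKS

section mat
variable {H : Type} [NormedAddCommGroup H] [InnerProductSpace ℂ H] [CompleteSpace H]

theorem mm_assoc (X Y Z : Mat H) : mm (mm X Y) Z = mm X (mm Y Z) := by
  funext i k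
  simp only [mm, Finset.sum_mul, Finset.mul_sum]
  rw [Finset.sum_comm]
  simp only [mul_assoc]

theorem mm_one (X : Mat H) : mm X m1 = X := by
  funext i k
  simp [mm, m1]

theorem one_mm (X : Mat H) : mm m1 X = X := by
  funext i k
  simp [mm, m1]

theorem ms_mm (X Y : Mat H) : ms (mm X Y) = mm (ms Y) (ms X) := by
  funext i k
  simp [mm, ms, star_sum]

theorem ms_ms (X : Mat H) : ms (ms X) = X := by
  funext i k
  simp [ms]

theorem ms_one : ms (m1 : Mat H) = m1 := by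
  funext i k
  simp only [ms, m1]
  by_cases h : i = k
  · subst h; simp
  · rw [if_neg (Ne.symm h), if_neg h, star_zero]

theorem Lm_mm (X Y : Mat H) (v : K3 H) : Lm (mm X Y) v = Lm X (Lm Y v) := by
  ext p
  obtain ⟨i, k⟩ := p
  rw [Lm_apply, Lm_apply]
  simp only [Lm_apply, mm, _root_.sum_apply, mul_apply_eq_comp, map_sum]
  rw [Finset.sum_comm]

theorem Lm_one (v : K3 H) : Lm (m1 : Mat H) v = v := by
  ext p
  obtain ⟨i, k⟩ := p
  rw [Lm_apply]
  simp only [m1]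
  rw [Finset.sum_eq_single i]
  · simp
  · intro j _ hj
    rw [if_neg (Ne.symm hj)]
    rfl
  · intro h
    exact absurd (Finset.mem_univ _) h

theorem Lm_adj (X : Mat H) (u v : K3 H) : ⟪Lm (ms X) u, v⟫_ℂ = ⟪u, Lm X v⟫_ℂ := by
  rw [PiLp.inner_apply, PiLp.inner_apply, Fintype.sum_prod_type, Fintype.sum_prod_type]
  simp only [Lm_apply, sum_inner, inner_sum, ms, ContinuousLinearMap.star_eq_adjoint,
    ContinuousLinearMap.adjoint_inner_left]
  rw [Finset.sum_comm]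
  conv_rhs => rw [Finset.sum_comm]
  refine Finset.sum_congr rfl fun k _ => ?_
  rw [Finset.sum_comm]

variable {M : VonNeumannAlgebra H} {ξ : H} {ρ : (H →L[ℂ] H) → (H →L[ℂ] H)}

theorem mem_mm {X Y : Mat H} (hX : ∀ i k, X i k ∈ M) (hY : ∀ i k, Y i k ∈ M) :
    ∀ i k, mm X Y i k ∈ M := fun i k => sum_mem fun j _ => mul_mem (hX i j) (hY j k)

theorem mem_ms {X : Mat H} (hX : ∀ i k, X i k ∈ M) : ∀ i k, ms X i k ∈ M :=
  fun i k => star_mem (hX k i)

theorem mem_m1 : ∀ i k, (m1 : Mat H) i k ∈ M := by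
  intro i k
  unfold m1
  split_ifs
  · exact one_mem _
  · exact zero_mem _

theorem isU_mm {X Y : Mat H} (hX : IsU M X) (hY : IsU M Y) : IsU M (mm X Y) := by
  refine ⟨mem_mm hX.1 hY.1, ?_, ?_⟩
  · rw [ms_mm, mm_assoc, ← mm_assoc (ms X), hX.2.1, one_mm, hY.2.1]
  · rw [ms_mm, mm_assoc, ← mm_assoc Y, hY.2.2, one_mm, hX.2.2]

theorem isU_ms {X : Mat H} (hX : IsU M X) : IsU M (ms X) := by
  refine ⟨mem_ms hX.1, ?_, ?_⟩
  · rw [ms_ms, hX.2.2]
  · rw [ms_ms, hX.2.1]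

theorem isU_one : IsU M (m1 : Mat H) := by
  refine ⟨mem_m1, ?_, ?_⟩
  · rw [ms_one, mm_one]
  · rw [ms_one, mm_one]

theorem rho_zero (h : Std M ξ ρ) : ρ 0 = 0 := by
  have h1 := h.add 0 (zero_mem _) 0 (zero_mem _)
  rw [add_zero] at h1
  simpa using h1

theorem rho_sum (h : Std M ξ ρ) {ι : Type*} (s : Finset ι) (f : ι → (H →L[ℂ] H))
    (hf : ∀ j ∈ s, f j ∈ M) : ρ (∑ j ∈ s, f j) = ∑ j ∈ s, ρ (f j) := by
  classical
  induction s using Finset.induction_on with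
  | empty => simpa using rho_zero h
  | insert a s ha ih =>
    rw [Finset.sum_insert ha, Finset.sum_insert ha, h.add _ (hf a (Finset.mem_insert_self a s)) _
      (sum_mem fun j hj => hf j (Finset.mem_insert_of_mem hj)),
      ih fun j hj => hf j (Finset.mem_insert_of_mem hj)]

theorem Rm_mm (h : Std M ξ ρ) {X Y : Mat H} (hX : ∀ i k, X i k ∈ M) (hY : ∀ i k, Y i k ∈ M)
    (v : K3 H) : Rm ρ (mm Y X) v = Rm ρ X (Rm ρ Y v) := by
  ext p
  obtain ⟨i, k⟩ := p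
  rw [Rm_apply, Rm_apply]
  have e : ∀ l, ρ (mm Y X l k) = ∑ j, ρ (X j k) * ρ (Y l j) := by
    intro l
    unfold mm
    rw [rho_sum h _ _ fun j _ => mul_mem (hY l j) (hX j k)]
    exact Finset.sum_congr rfl fun j _ => h.mul _ (hY l j) _ (hX j k)
  simp only [e, Rm_apply, _root_.sum_apply, mul_apply_eq_comp, map_sum]
  rw [Finset.sum_comm]

theorem Rm_one (h : Std M ξ ρ) (v : K3 H) : Rm ρ (m1 : Mat H) v = v := by
  ext p
  obtain ⟨i, k⟩ := p
  rw [Rm_apply]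
  simp only [m1]
  rw [Finset.sum_eq_single k]
  · simp [h.one]
  · intro j _ hj
    rw [if_neg hj, rho_zero h]
    rfl
  · intro h
    exact absurd (Finset.mem_univ _) h

theorem Rm_adj (h : Std M ξ ρ) {X : Mat H} (hX : ∀ i k, X i k ∈ M) (u v : K3 H) :
    ⟪Rm ρ (ms X) u, v⟫_ℂ = ⟪u, Rm ρ X v⟫_ℂ := by
  rw [PiLp.inner_apply, PiLp.inner_apply, Fintype.sum_prod_type, Fintype.sum_prod_type]
  refine Finset.sum_congr rfl fun i _ => ?_
  have e : ∀ j k, ρ (ms X j k) = ContinuousLinearMap.adjoint (ρ (X k j)) := fun j k => by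
    rw [← ContinuousLinearMap.star_eq_adjoint, ← h.stm _ (hX k j)]
    rfl
  simp only [Rm_apply, e, sum_inner, inner_sum, ContinuousLinearMap.adjoint_inner_left]
  rw [Finset.sum_comm]

theorem Lm_Rm (h : Std M ξ ρ) {X Y : Mat H} (hX : ∀ i k, X i k ∈ M) (hY : ∀ i k, Y i k ∈ M)
    (v : K3 H) : Rm ρ Y (Lm X v) = Lm X (Rm ρ Y v) := by
  ext p
  obtain ⟨i, k⟩ := p
  rw [Rm_apply, Lm_apply]
  simp only [Rm_apply, Lm_apply, map_sum]
  rw [Finset.sum_comm]
  refine Finset.sum_congr rfl fun j _ => Finset.sum_congr rfl fun l _ => ?_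
  have := h.comm _ (hY l k) _ (hX i j)
  rw [← mul_apply_eq_comp, this, mul_apply_eq_comp]

theorem Lm_norm {X : Mat H} (hX : IsU M X) (v : K3 H) : ‖Lm X v‖ = ‖v‖ := by
  have h1 : ⟪Lm X v, Lm X v⟫_ℂ = ⟪v, v⟫_ℂ := by
    rw [← Lm_adj, ← Lm_mm, hX.2.1, Lm_one]
  have h2 : ‖Lm X v‖ ^ 2 = ‖v‖ ^ 2 := by
    rw [@norm_sq_eq_re_inner ℂ, @norm_sq_eq_re_inner ℂ, h1]
  exact (pow_left_inj₀ (norm_nonneg _) (norm_nonneg _) two_ne_zero).1 h2

theorem Rm_norm (h : Std M ξ ρ) {X : Mat H} (hX : IsU M X) (v : K3 H) : ‖Rm ρ X v‖ = ‖v‖ := by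
  have h1 : ⟪Rm ρ X v, Rm ρ X v⟫_ℂ = ⟪v, v⟫_ℂ := by
    rw [← Rm_adj h hX.1, ← Rm_mm h (mem_ms hX.1) hX.1, hX.2.2, Rm_one h]
  have h2 : ‖Rm ρ X v‖ ^ 2 = ‖v‖ ^ 2 := by
    rw [@norm_sq_eq_re_inner ℂ, @norm_sq_eq_re_inner ℂ, h1]
  exact (pow_left_inj₀ (norm_nonneg _) (norm_nonneg _) two_ne_zero).1 h2

/-- the group of unitary matrices with entries in `M` -/
def UG (M : VonNeumannAlgebra H) : Type := {X : Mat H // IsU M X}

noncomputable instance : Group (UG M) where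
  mul X Y := ⟨mm X.1 Y.1, isU_mm X.2 Y.2⟩
  one := ⟨m1, isU_one⟩
  inv X := ⟨ms X.1, isU_ms X.2⟩
  mul_assoc X Y Z := Subtype.ext (mm_assoc _ _ _)
  one_mul X := Subtype.ext (one_mm _)
  mul_one X := Subtype.ext (mm_one _)
  inv_mul_cancel X := Subtype.ext X.2.2.1

/-- constructor -/
def mkU {M : VonNeumannAlgebra H} (X : Mat H) (hX : IsU M X) : UG M := ⟨X, hX⟩

/-- conjugation -/
noncomputable def cpi (h : Std M ξ ρ) : UG M →* (K3 H →L[ℂ] K3 H) where
  toFun X := Lm X.1 * Rm ρ (ms X.1)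
  map_one' := by
    ext1 v
    show Lm m1 (Rm ρ (ms m1) v) = v
    rw [ms_one, Rm_one h, Lm_one]
  map_mul' X Y := by
    ext1 v
    show Lm (mm X.1 Y.1) (Rm ρ (ms (mm X.1 Y.1)) v) =
      Lm X.1 (Rm ρ (ms X.1) (Lm Y.1 (Rm ρ (ms Y.1) v)))
    rw [ms_mm, Rm_mm h (mem_ms X.2.1) (mem_ms Y.2.1), Lm_mm, Lm_Rm h Y.2.1 (mem_ms X.2.1)]

end mat

theorem mean (hSM : S_SM) : S_MEAN := by
  intro H _ _ _ M ξ ρ h Z C hZ
  have hiso : ∀ (g : UG M) (v : K3 H), ‖cpi h g v‖ = ‖v‖ := by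
    intro g v
    show ‖Lm g.1 (Rm ρ (ms g.1) v)‖ = ‖v‖
    rw [Lm_norm g.2, Rm_norm h (isU_ms g.2)]
  obtain ⟨E, hE, hinv⟩ := hSM (UG M) (K3 H) (cpi h) (fun g => Z g.1) C hiso (fun g => hZ g.1 g.2)
  refine ⟨UG M × UG M, fun p => p.1.1, fun p => p.2.1, E, hE, ⟨(1, 1)⟩, fun i => i.1.2,
    fun i => i.2.2, fun g hg => ?_⟩
  have e : (fun i : UG M × UG M => Lm (ms i.1.1) (Rm ρ i.1.1 (Z (mm i.1.1 (mm g i.2.1))))) =
      fun p : UG M × UG M => cpi h p.1⁻¹ (Z (p.1 * mkU g hg * p.2).1) := by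
    funext p
    show _ = Lm (ms p.1.1) (Rm ρ (ms (ms p.1.1)) (Z (mm (mm p.1.1 g) p.2.1)))
    rw [ms_ms, mm_assoc]
  rw [e]
  set d : Mat H := fun i j => if i = j then (if i = 2 then -1 else 1) else 0 with hd
  have hdM : ∀ i k, d i k ∈ M := by
    intro i k
    rw [hd]
    simp only
    split_ifs
    · exact neg_mem (one_mem _)
    · exact one_mem _
    · exact zero_mem _
  have hms : ms d = d := by
    funext i k
    simp only [ms, hd]
    by_cases hik : i = k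
    · subst hik
      simp only [if_true]
      split_ifs <;> simp
    · rw [if_neg (Ne.symm hik), if_neg hik, star_zero]
  have hdd : mm d d = m1 := by
    funext i k
    fin_cases i <;> fin_cases k <;> simp [mm, hd, m1]
  have hdU : IsU M d := ⟨hdM, by rw [hms, hdd], by rw [hms, hdd]⟩
  have h1 := hinv (mkU g hg) (mkU d hdU)
  set v : K3 H := E (fun p : UG M × UG M => cpi h p.1⁻¹ (Z (p.1 * mkU g hg * p.2).1))
    with hv
  have h2 : Lm d (Rm ρ (ms d) v) = v := h1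
  have h3 : (Lm d (Rm ρ (ms d) v)) (0, 2) = -(v (0, 2)) := by
    rw [hms, Lm_apply, Fin.sum_univ_three, Rm_apply, Rm_apply, Rm_apply, Fin.sum_univ_three,
      Fin.sum_univ_three, Fin.sum_univ_three]
    have hm1 : ρ (-1) = -1 := by
      have := h.smul (-1) 1 (one_mem _)
      rw [h.one] at this
      simpa using this
    simp [hd, rho_zero h, hm1]
  rw [h2] at h3
  have h4 : (2 : ℂ) • v (0, 2) = 0 := by
    rw [two_smul]
    nth_rewrite 1 [h3]
    exact neg_add_cancel _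
  exact (smul_eq_zero.1 h4).resolve_left two_ne_zero

end Pool.Agent.W837.KKS
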