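import Mathlib
import Pool.Agent.W662.KKS.Stmts
import Pool.Agent.H730R3.HC.T08

/-!
Barycentres of bounded vector valued functions with respect to a mean, and the Alaoglu-Birkhoff
theorem: a mean `m₀` on a group with `m₀ (v ↦ re ⟪c, π v w⟫) = re ⟪c, P w⟫`.
-/

set_option autoImplicit false
set_option linter.unusedSectionVars false

open scoped InnerProductSpace
open Finset

namespace Pool.Agent.W837.KKS

open H730HC (IsMean Bdd nu Er ulim)

variable {K : Type} [NormedAddCommGroup K] [InnerProductSpace ℂ K]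

/-- the real part of the inner product -/
noncomputable def ip (a b : K) : ℝ := (⟪a, b⟫_ℂ).re

theorem ip_comm (a b : K) : ip a b = ip b a := by
  unfold ip
  rw [← inner_conj_symm, Complex.conj_re]

theorem ip_add_right (a b c : K) : ip a (b + c) = ip a b + ip a c := by
  unfold ip; rw [inner_add_right, Complex.add_re]

theorem ip_add_left (a b c : K) : ip (a + b) c = ip a c + ip b c := by
  unfold ip; rw [inner_add_left, Complex.add_re]

theorem ip_sub_right (a b c : K) : ip a (b - c) = ip a b - ip a c := by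
  unfold ip; rw [inner_sub_right, Complex.sub_re]

theorem ip_sub_left (a b c : K) : ip (a - b) c = ip a c - ip b c := by
  unfold ip; rw [inner_sub_left, Complex.sub_re]

theorem ip_self (a : K) : ip a a = ‖a‖ ^ 2 := by
  unfold ip
  have := inner_self_eq_norm_sq (𝕜 := ℂ) a
  simpa using this

theorem ip_zero_right (a : K) : ip a 0 = 0 := by unfold ip; simp

theorem ip_smul_right (a b : K) (r : ℝ) : ip a ((r : ℂ) • b) = r * ip a b := by
  unfold ip
  rw [inner_smul_right, Complex.re_ofReal_mul]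

theorem abs_ip_le (a b : K) : |ip a b| ≤ ‖a‖ * ‖b‖ :=
  (Complex.abs_re_le_norm _).trans (norm_inner_le_norm a b)

theorem norm_sub_sq' (a b : K) : ‖a - b‖ ^ 2 = ‖a‖ ^ 2 - 2 * ip a b + ‖b‖ ^ 2 := by
  rw [← ip_self, ip_sub_left, ip_sub_right, ip_sub_right, ip_self, ip_self, ip_comm b a]
  ring

theorem norm_add_sq' (a b : K) : ‖a + b‖ ^ 2 = ‖a‖ ^ 2 + 2 * ip a b + ‖b‖ ^ 2 := by
  rw [← ip_self, ip_add_left, ip_add_right, ip_add_right, ip_self, ip_self, ip_comm b a]
  ring

theorem ip_iso (T : K →L[ℂ] K) (hT : ∀ v, ‖T v‖ = ‖v‖) (a b : K) : ip (T a) (T b) = ip a b := by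
  have h1 := norm_add_sq' (T a) (T b)
  have h2 := norm_add_sq' a b
  rw [← map_add, hT, hT, hT] at h1
  linarith

theorem eq_of_ip {x y : K} (h : ∀ v, ip v x = ip v y) : x = y := by
  have h1 : ip (x - y) (x - y) = 0 := by rw [ip_sub_right, h, sub_self]
  rw [ip_self] at h1
  exact sub_eq_zero.1 (norm_eq_zero.1 (pow_eq_zero_iff (two_ne_zero) |>.1 h1))

/-- `x` is the barycentre of `f` -/
def Bar {I : Type} (m : (I → ℝ) → ℝ) (f : I → K) (x : K) : Prop :=
  ∀ v, ip v x = m (fun i => ip v (f i))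

theorem bdd_ip {I : Type} {f : I → K} {C : ℝ} (hf : ∀ i, ‖f i‖ ≤ C) (v : K) :
    Bdd (fun i => ip v (f i)) :=
  ⟨‖v‖ * C, fun i => (abs_ip_le _ _).trans (mul_le_mul_of_nonneg_left (hf i) (norm_nonneg _))⟩

theorem Bar.unique {I : Type} {m : (I → ℝ) → ℝ} {f : I → K} {x y : K} (hx : Bar m f x)
    (hy : Bar m f y) : x = y := eq_of_ip fun v => by rw [hx v, hy v]

theorem Bar.norm_le {I : Type} {m : (I → ℝ) → ℝ} (hm : IsMean m) {f : I → K} {x : K} {C : ℝ}
    (hf : ∀ i, ‖f i‖ ≤ C) (hx : Bar m f x) : ‖x‖ ≤ C := by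
  have h1 : ip x x ≤ ‖x‖ * C := by
    rw [hx x]
    refine (le_abs_self _).trans (H730HC.T08_mean_le hm fun i => ?_)
    exact (abs_ip_le _ _).trans (mul_le_mul_of_nonneg_left (hf i) (norm_nonneg _))
  rw [ip_self] at h1
  rcases (norm_nonneg x).eq_or_lt with h | h
  · rw [← h]
    by_contra hC
    push Not at hC
    have hI : IsEmpty I := ⟨fun i => absurd ((norm_nonneg _).trans (hf i)) (not_le.2 hC)⟩
    have h2 := hm.mono (fun _ => 1) (fun _ => 0) ⟨1, fun i => hI.elim i⟩ ⟨0, fun i => hI.elim i⟩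
      (fun i => hI.elim i)
    rw [hm.const, hm.const] at h2
    linarith
  · nlinarith

/-- existence of barycentres -/
theorem exists_bar [CompleteSpace K] {I : Type} {m : (I → ℝ) → ℝ} (hm : IsMean m) {f : I → K}
    {C : ℝ} (hf : ∀ i, ‖f i‖ ≤ C) : ∃ x, Bar m f x := by
  have hI : Nonempty I := by
    by_contra hI
    rw [not_nonempty_iff] at hI
    have h2 := hm.mono (fun _ => 1) (fun _ => 0) ⟨1, fun i => hI.elim i⟩ ⟨0, fun i => hI.elim i⟩
      (fun i => hI.elim i)
    rw [hm.const, hm.const] at h2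
    linarith
  have hC : 0 ≤ C := (norm_nonneg _).trans (hf hI.some)
  have hre : ∀ v, Bdd (fun i => (⟪f i, v⟫_ℂ).re) := fun v => ⟨C * ‖v‖, fun i =>
    (Complex.abs_re_le_norm _).trans ((norm_inner_le_norm _ _).trans
      (mul_le_mul_of_nonneg_right (hf i) (norm_nonneg _)))⟩
  have him : ∀ v, Bdd (fun i => (⟪f i, v⟫_ℂ).im) := fun v => ⟨C * ‖v‖, fun i =>
    (Complex.abs_im_le_norm _).trans ((norm_inner_le_norm _ _).trans
      (mul_le_mul_of_nonneg_right (hf i) (norm_nonneg _)))⟩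
  let L : K →ₗ[ℂ] ℂ :=
    { toFun := fun v => (m (fun i => (⟪f i, v⟫_ℂ).re) : ℂ) + (m (fun i => (⟪f i, v⟫_ℂ).im) : ℂ) *
        Complex.I
      map_add' := by
        intro v w
        have h1 : (fun i => (⟪f i, v + w⟫_ℂ).re) = fun i => (⟪f i, v⟫_ℂ).re + (⟪f i, w⟫_ℂ).re := by
          funext i; rw [inner_add_right, Complex.add_re]
        have h2 : (fun i => (⟪f i, v + w⟫_ℂ).im) = fun i => (⟪f i, v⟫_ℂ).im + (⟪f i, w⟫_ℂ).im := by
          funext i; rw [inner_add_right, Complex.add_im]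
        rw [h1, h2, hm.add _ _ (hre v) (hre w), hm.add _ _ (him v) (him w)]
        push_cast
        ring
      map_smul' := by
        intro z v
        have h1 : (fun i => (⟪f i, z • v⟫_ℂ).re) =
            fun i => z.re * (⟪f i, v⟫_ℂ).re + (-z.im) * (⟪f i, v⟫_ℂ).im := by
          funext i; rw [inner_smul_right, Complex.mul_re]; ring
        have h2 : (fun i => (⟪f i, z • v⟫_ℂ).im) =
            fun i => z.re * (⟪f i, v⟫_ℂ).im + z.im * (⟪f i, v⟫_ℂ).re := by
          funext i; rw [inner_smul_right, Complex.mul_im]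
        have hb : ∀ (c : ℝ) (g : I → ℝ), Bdd g → Bdd (fun i => c * g i) := by
          rintro c g ⟨D, hD⟩
          exact ⟨|c| * D, fun i => by
            rw [abs_mul]; exact mul_le_mul_of_nonneg_left (hD i) (abs_nonneg _)⟩
        rw [h1, h2, hm.add (fun i => z.re * (⟪f i, v⟫_ℂ).re) (fun i => (-z.im) * (⟪f i, v⟫_ℂ).im)
            (hb _ _ (hre v)) (hb _ _ (him v)),
          hm.add (fun i => z.re * (⟪f i, v⟫_ℂ).im) (fun i => z.im * (⟪f i, v⟫_ℂ).re)
            (hb _ _ (him v)) (hb _ _ (hre v)), hm.smul _ _ (hre v), hm.smul _ _ (him v),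
          hm.smul _ _ (hre v), hm.smul _ _ (him v)]
        simp only [RingHom.id_apply, smul_eq_mul]
        apply Complex.ext
        · simp
          ring
        · simp }
  have hL : ∀ v, ‖L v‖ ≤ (2 * C) * ‖v‖ := by
    intro v
    have h1 : |m (fun i => (⟪f i, v⟫_ℂ).re)| ≤ C * ‖v‖ := H730HC.T08_mean_le hm fun i =>
      (Complex.abs_re_le_norm _).trans ((norm_inner_le_norm _ _).trans
      (mul_le_mul_of_nonneg_right (hf i) (norm_nonneg _)))
    have h2 : |m (fun i => (⟪f i, v⟫_ℂ).im)| ≤ C * ‖v‖ := H730HC.T08_mean_le hm fun i =>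
      (Complex.abs_im_le_norm _).trans ((norm_inner_le_norm _ _).trans
      (mul_le_mul_of_nonneg_right (hf i) (norm_nonneg _)))
    have h3 : ‖L v‖ ≤ |m (fun i => (⟪f i, v⟫_ℂ).re)| + |m (fun i => (⟪f i, v⟫_ℂ).im)| := by
      refine (norm_add_le _ _).trans ?_
      rw [norm_mul, Complex.norm_I, mul_one, Complex.norm_real, Complex.norm_real,
        Real.norm_eq_abs, Real.norm_eq_abs]
    linarith
  let L' : K →L[ℂ] ℂ := L.mkContinuous (2 * C) hL
  refine ⟨(InnerProductSpace.toDual ℂ K).symm L', fun v => ?_⟩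
  have h1 : ⟪(InnerProductSpace.toDual ℂ K).symm L', v⟫_ℂ = L' v :=
    InnerProductSpace.toDual_symm_apply
  rw [ip_comm, ip, h1]
  have h2 : (L' v).re = m (fun i => (⟪f i, v⟫_ℂ).re) := by
    show ((m (fun i => (⟪f i, v⟫_ℂ).re) : ℂ) + (m (fun i => (⟪f i, v⟫_ℂ).im) : ℂ) *
        Complex.I).re = _
    simp
  rw [h2]
  congr 1
  funext i
  rw [ip_comm]
  rfl

open Classical in
/-- the barycentre -/
noncomputable def VE {I : Type} (m : (I → ℝ) → ℝ) (f : I → K) : K :=
  if h : ∃ x, Bar m f x then h.choose else 0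

theorem VE_bar [CompleteSpace K] {I : Type} {m : (I → ℝ) → ℝ} (hm : IsMean m) {f : I → K} {C : ℝ}
    (hf : ∀ i, ‖f i‖ ≤ C) : Bar m f (VE m f) := by
  unfold VE
  rw [dif_pos (exists_bar hm hf)]
  exact (exists_bar hm hf).choose_spec

theorem VE_isVMean [CompleteSpace K] {I : Type} {m : (I → ℝ) → ℝ} (hm : IsMean m) :
    Pool.Agent.W662.KKS.IsVMean (fun f : I → K => VE m f) where
  bound f C hf := (VE_bar hm hf).norm_le hm hf
  add f g C hf hg := by
    have hfg : ∀ i, ‖f i + g i‖ ≤ C + C := fun i =>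
      (norm_add_le _ _).trans (add_le_add (hf i) (hg i))
    refine (VE_bar hm hfg).unique fun v => ?_
    have h1 : (fun i => ip v (f i + g i)) = fun i => ip v (f i) + ip v (g i) :=
      funext fun i => ip_add_right _ _ _
    rw [h1, hm.add _ _ (bdd_ip hf v) (bdd_ip hg v), ip_add_right, VE_bar hm hf v, VE_bar hm hg v]
  clm T f C hf := by
    have hTf : ∀ i, ‖T (f i)‖ ≤ ‖T‖ * C := fun i =>
      (T.le_opNorm _).trans (mul_le_mul_of_nonneg_left (hf i) (norm_nonneg _))
    refine (VE_bar hm hTf).unique fun v => ?_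
    have h0 : ∀ x, ip v (T x) = ip (ContinuousLinearMap.adjoint T v) x := fun x => by
      unfold ip
      rw [ContinuousLinearMap.adjoint_inner_left]
    simp only [h0]
    exact VE_bar hm hf _
  const v := by
    refine (VE_bar hm (C := ‖v‖) fun _ => le_rfl).unique fun w => ?_
    exact (hm.const _).symm

end Pool.Agent.W837.KKS
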