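import Pool.Agent.W837.KKS.Bar

/-!
The Alaoglu-Birkhoff theorem: a mean `m₀` on a group `G` acting by isometries of a Hilbert space
with `m₀ (v ↦ re ⟪c, π v w⟫) = re ⟪c, P w⟫`, where `P` is the projection onto the fixed vectors.
-/

set_option autoImplicit false
set_option linter.unusedSectionVars false

open scoped InnerProductSpace
open Finset

namespace Pool.Agent.W837.KKS

open H730HC (IsMean Bdd nu Er ulim)

variable {G K : Type} [Group G] [NormedAddCommGroup K] [InnerProductSpace ℂ K]

/-- fixed vectors -/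
def Fix (π : G →* (K →L[ℂ] K)) : Submodule ℂ K where
  carrier := {v | ∀ g, π g v = v}
  add_mem' := by
    intro a b ha hb g
    rw [map_add, ha g, hb g]
  zero_mem' := fun g => map_zero _
  smul_mem' := by
    intro c a ha g
    rw [map_smul, ha g]

theorem isClosed_Fix (π : G →* (K →L[ℂ] K)) : IsClosed (Fix π : Set K) := by
  have : (Fix π : Set K) = ⋂ g, {v | π g v = v} := by
    ext v
    simp [Fix]
  rw [this]
  exact isClosed_iInter fun g => isClosed_eq (π g).continuous continuous_id

instance [CompleteSpace K] (π : G →* (K →L[ℂ] K)) : (Fix π).HasOrthogonalProjection := by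
  have : CompleteSpace (Fix π) := (isClosed_Fix π).completeSpace_coe
  infer_instance

/-- projection onto the fixed vectors -/
noncomputable def PF [CompleteSpace K] (π : G →* (K →L[ℂ] K)) : K →L[ℂ] K := (Fix π).starProjection

theorem PF_fix [CompleteSpace K] (π : G →* (K →L[ℂ] K)) (w : K) (g : G) :
    π g (PF π w) = PF π w := by
  have h : PF π w ∈ Fix π := Submodule.starProjection_apply_mem _ _
  exact h g

theorem PF_orth [CompleteSpace K] (π : G →* (K →L[ℂ] K)) (w : K) {f : K} (hf : ∀ g, π g f = f) :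
    ip f (w - PF π w) = 0 := by
  rw [ip_comm]
  unfold ip PF
  rw [Submodule.starProjection_inner_eq_zero w f (show f ∈ Fix π from hf), Complex.zero_re]

/-- the complementary projection -/
noncomputable def pe [CompleteSpace K] (π : G →* (K →L[ℂ] K)) (w : K) : K := w - PF π w

theorem pe_self [CompleteSpace K] (π : G →* (K →L[ℂ] K)) (w : K) : ip (pe π w) w = ‖pe π w‖ ^ 2 := by
  have h1 := PF_orth π w (PF_fix π w)
  rw [← ip_self]
  unfold pe
  conv_rhs => rw [ip_sub_right]
  rw [ip_comm _ (PF π w), h1, sub_zero]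

theorem pe_le [CompleteSpace K] (π : G →* (K →L[ℂ] K)) (w : K) : ‖pe π w‖ ≤ ‖w‖ := by
  have h1 := pe_self π w
  have h2 := abs_ip_le (pe π w) w
  rw [h1, abs_of_nonneg (by positivity)] at h2
  by_contra hc
  push Not at hc
  nlinarith [norm_nonneg w, norm_nonneg (pe π w)]

theorem PF_unique [CompleteSpace K] (π : G →* (K →L[ℂ] K)) {w u : K} (hu : ∀ g, π g u = u)
    (h : ∀ f, (∀ g, π g f = f) → ip f (w - u) = 0) : PF π w = u := by
  have hd : ∀ g, π g (PF π w - u) = PF π w - u := fun g => by rw [map_sub, PF_fix, hu]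
  have h1 := h _ hd
  have h2 := PF_orth π w hd
  have h3 : ip (PF π w - u) (PF π w - u) = 0 := by
    have e : PF π w - u = (w - u) - (w - PF π w) := by abel
    conv_lhs => rw [ip_sub_right]
    have h4 : ip (PF π w - u) w - ip (PF π w - u) u = 0 := by rw [← ip_sub_right]; exact h1
    have h5 : ip (PF π w - u) w - ip (PF π w - u) (PF π w) = 0 := by rw [← ip_sub_right]; exact h2
    linarith
  rw [ip_self] at h3
  exact sub_eq_zero.1 (norm_eq_zero.1 (pow_eq_zero_iff (two_ne_zero) |>.1 h3))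

theorem PF_of_fix [CompleteSpace K] (π : G →* (K →L[ℂ] K)) {u : K} (hu : ∀ g, π g u = u) :
    PF π u = u := PF_unique π hu fun f _ => by rw [sub_self, ip_zero_right]

theorem PF_pe [CompleteSpace K] (π : G →* (K →L[ℂ] K)) (w : K) : PF π (pe π w) = 0 := by
  unfold pe
  rw [map_sub, PF_of_fix π (PF_fix π w), sub_self]

theorem pe_orth [CompleteSpace K] (π : G →* (K →L[ℂ] K)) (x y : K) : ip (pe π x) (PF π y) = 0 := by
  rw [ip_comm]
  exact PF_orth π x (PF_fix π y)

section
variable (π : G →* (K →L[ℂ] K)) (hπ : ∀ g v, ‖π g v‖ = ‖v‖)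
include hπ

theorem ip_pi (g : G) (a b : K) : ip (π g a) (π g b) = ip a b := ip_iso (π g) (hπ g) a b

theorem ip_inv (g : G) (a b : K) : ip a (π g b) = ip (π g⁻¹ a) b := by
  rw [← ip_pi π hπ g (π g⁻¹ a) b, ← mul_apply_eq_comp, ← map_mul, mul_inv_cancel,
    map_one, one_apply_eq_self]

theorem Bar.mul_left {m : (G → ℝ) → ℝ} {w x : K} (hx : Bar m (fun v => π v w) x) (g : G) :
    Bar (fun f => m (fun v => f (g * v))) (fun v => π v w) (π g x) := by
  intro c
  rw [ip_inv π hπ, hx]
  congr 1
  funext v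
  show ip (π g⁻¹ c) (π v w) = ip c (π (g * v) w)
  rw [map_mul, mul_apply_eq_comp, ip_inv π hπ g c]

/-- approximation of one vector -/
theorem mix_one [CompleteSpace K] (w : K) (ε : ℝ) (hε : 0 < ε) :
    ∃ m : (G → ℝ) → ℝ, IsMean m ∧ ∃ x, Bar m (fun v => π v w) x ∧ ‖x - PF π w‖ ≤ ε := by
  set S : Set K := {x | ∃ m : (G → ℝ) → ℝ, IsMean m ∧ Bar m (fun v => π v w) x} with hS
  have hne : S.Nonempty := by
    refine ⟨w, fun f => f 1, H730HC.T08_mean_point 1, fun v => ?_⟩
    simp
  have hconv : Convex ℝ S := by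
    rintro x ⟨m1, hm1, h1⟩ y ⟨m2, hm2, h2⟩ a b ha hb hab
    refine ⟨fun f => a * m1 f + b * m2 f, ⟨?_, ?_, ?_, ?_⟩, ?_⟩
    · intro f g hf hg
      show a * m1 (fun i => f i + g i) + b * m2 (fun i => f i + g i) = _
      rw [hm1.add f g hf hg, hm2.add f g hf hg]; ring
    · intro c f hf
      show a * m1 (fun i => c * f i) + b * m2 (fun i => c * f i) = _
      rw [hm1.smul c f hf, hm2.smul c f hf]; ring
    · intro f g hf hg hfg
      exact add_le_add (mul_le_mul_of_nonneg_left (hm1.mono f g hf hg hfg) ha)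
        (mul_le_mul_of_nonneg_left (hm2.mono f g hf hg hfg) hb)
    · intro c
      show a * m1 (fun _ => c) + b * m2 (fun _ => c) = c
      rw [hm1.const, hm2.const, ← add_mul, hab, one_mul]
    · intro v
      show ip v (a • x + b • y) = a * m1 _ + b * m2 _
      rw [← h1 v, ← h2 v, ip_add_right]
      congr 1
      · exact ip_smul_right v x a
      · exact ip_smul_right v y b
  have hcl : Convex ℝ (closure S) := hconv.closure
  let _ : InnerProductSpace ℝ K := InnerProductSpace.rclikeToReal ℂ K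
  obtain ⟨u, hu, hmin⟩ := exists_norm_eq_iInf_of_complete_convex (hne.mono subset_closure)
    isClosed_closure.isComplete hcl (0 : K)
  rw [norm_eq_iInf_iff_real_inner_le_zero hcl hu] at hmin
  have hinv : ∀ g, π g u ∈ closure S := by
    intro g
    refine map_mem_closure (π g).continuous hu ?_
    rintro x ⟨m, hm, hx⟩
    exact ⟨_, H730HC.T08_mean_pull hm (fun v => g * v), Bar.mul_left π hπ hx g⟩
  have hfix : ∀ g, π g u = u := by
    intro g
    have h1 : ip (0 - u) (π g u - u) ≤ 0 := hmin _ (hinv g)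
    have h2 := norm_sub_sq' (π g u) u
    rw [hπ, ip_comm] at h2
    rw [ip_sub_left, ip_sub_right, ip_sub_right] at h1
    have h3 : ip (0 : K) (π g u) = 0 := by rw [ip_comm, ip_zero_right]
    have h4 : ip (0 : K) u = 0 := by rw [ip_comm, ip_zero_right]
    rw [h3, h4, ip_self] at h1
    have h5 : ‖π g u - u‖ ^ 2 ≤ 0 := by rw [h2]; linarith
    have h6 : ‖π g u - u‖ = 0 := by nlinarith [norm_nonneg (π g u - u)]
    exact sub_eq_zero.1 (norm_eq_zero.1 h6)
  have horth : ∀ f, (∀ g, π g f = f) → ∀ x ∈ closure S, ip f x = ip f w := by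
    intro f hf x hx
    have hclosed : IsClosed {x : K | ip f x = ip f w} := by
      refine isClosed_eq ?_ continuous_const
      unfold ip
      fun_prop
    have hsub : S ⊆ {x : K | ip f x = ip f w} := by
      rintro y ⟨m, hm, hy⟩
      show ip f y = ip f w
      rw [hy f]
      have : (fun i => ip f (π i w)) = fun _ => ip f w := by
        funext i
        rw [ip_inv π hπ, hf]
      rw [this, hm.const]
    exact closure_minimal hsub hclosed hx
  have hP : PF π w = u := PF_unique π hfix fun f hf => by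
    rw [ip_sub_right, horth f hf u hu, sub_self]
  obtain ⟨x, ⟨m, hm, hx⟩, hxu⟩ := Metric.mem_closure_iff.1 hu ε hε
  refine ⟨m, hm, x, hx, ?_⟩
  rw [hP, ← dist_eq_norm, dist_comm]
  exact hxu.le

/-- approximation of finitely many vectors -/
theorem mix_fin [CompleteSpace K] (J : Finset K) (ε : ℝ) (hε : 0 < ε) :
    ∃ m : (G → ℝ) → ℝ, IsMean m ∧ ∀ w ∈ J, ∃ x, Bar m (fun v => π v w) x ∧
      ‖x - PF π w‖ ≤ ε := by
  classical
  induction J using Finset.induction_on with
  | empty => exact ⟨fun f => f 1, H730HC.T08_mean_point 1, by simp⟩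
  | insert w J hw ih =>
    obtain ⟨m, hm, hJ⟩ := ih
    have hb : ∀ w v, ‖π v w‖ ≤ ‖w‖ := fun w v => (hπ v w).le
    obtain ⟨x, hx⟩ := exists_bar hm (hb w)
    have hPx : PF π x = PF π w := by
      refine PF_unique π (PF_fix π w) fun f hf => ?_
      have h1 : ip f x = ip f w := by
        rw [hx f]
        have : (fun i => ip f (π i w)) = fun _ => ip f w := by
          funext i
          rw [ip_inv π hπ, hf]
        rw [this, hm.const]
      rw [ip_sub_right, h1, ← ip_sub_right]
      exact PF_orth π w hf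
    obtain ⟨m', hm', y, hy, hyx⟩ := mix_one π hπ x ε hε
    have hbar : ∀ z x, Bar m (fun v => π v z) x → ∀ y, Bar m' (fun v => π v x) y →
        Bar (fun f => m' (fun v' => m (fun v => f (v' * v)))) (fun v => π v z) y := by
      intro z x hx y hy c
      rw [hy c]
      congr 1
      funext v'
      rw [ip_inv π hπ v' c, hx]
      congr 1
      funext v
      show ip (π v'⁻¹ c) (π v z) = ip c (π (v' * v) z)
      rw [map_mul, mul_apply_eq_comp, ip_inv π hπ v' c]
    refine ⟨fun f => m' (fun v' => m (fun v => f (v' * v))),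
      H730HC.T08_mean_bind hm' (fun v' f => m (fun v => f (v' * v)))
        (fun v' => H730HC.T08_mean_pull hm (fun v => v' * v)), ?_⟩
    intro z hz
    rcases Finset.mem_insert.1 hz with rfl | hz
    · exact ⟨y, hbar z x hx y hy, by rw [← hPx]; exact hyx⟩
    · obtain ⟨x', hx', hx'P⟩ := hJ z hz
      obtain ⟨y', hy'⟩ := exists_bar hm' (hb x')
      refine ⟨y', hbar z x' hx' y' hy', ?_⟩
      have h1 : Bar m' (fun v => π v (x' - PF π z)) (y' - PF π z) := by
        intro c
        have h2 : (fun i => ip c (π i (x' - PF π z))) =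
            fun i => ip c (π i x') + (-1) * ip c (PF π z) := by
          funext i
          rw [map_sub, PF_fix, ip_sub_right]; ring
        rw [h2, hm'.add _ _ (bdd_ip (hb x') c) ⟨|(-1) * ip c (PF π z)|, fun _ => le_rfl⟩,
          hm'.const, ip_sub_right, hy' c]
        ring
      refine (h1.norm_le hm' (C := ‖x' - PF π z‖) fun v => (hπ v _).le).trans hx'P

/-- the Alaoglu-Birkhoff theorem -/
theorem exists_mix [CompleteSpace K] : ∃ m : (G → ℝ) → ℝ, IsMean m ∧
    ∀ c w : K, m (fun v => ip c (π v w)) = ip c (PF π w) := by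
  classical
  have hd : ∀ k : Finset K × ℕ, ∃ m : (G → ℝ) → ℝ, IsMean m ∧
      ∀ w ∈ k.1, ∃ x, Bar m (fun v => π v w) x ∧ ‖x - PF π w‖ ≤ 1 / ((k.2 : ℝ) + 1) :=
    fun k => mix_fin π hπ k.1 _ (by positivity)
  choose m hm hx using hd
  let F : Ultrafilter (Finset K × ℕ) := Ultrafilter.of Filter.atTop
  have hF : (F : Filter (Finset K × ℕ)) ≤ Filter.atTop := Ultrafilter.of_le _
  refine ⟨fun f => ulim F (fun k => m k f), H730HC.ultra_isMean F m hm, fun c w => ?_⟩
  have hb : Bdd (fun v : G => ip c (π v w)) := bdd_ip (C := ‖w‖) (fun v => (hπ v w).le) c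
  have ht := H730HC.ultra_tendsto F m hm _ hb
  refine tendsto_nhds_unique ht (Filter.Tendsto.mono_left ?_ hF)
  rw [Metric.tendsto_atTop]
  intro ε hε
  obtain ⟨n, hn⟩ := exists_nat_gt (‖c‖ / ε)
  refine ⟨({w}, n), fun k hk => ?_⟩
  have hk1 : w ∈ k.1 := hk.1 (Finset.mem_singleton_self w)
  have hk2 : n ≤ k.2 := hk.2
  obtain ⟨x, hxb, hxn⟩ := hx k w hk1
  have hpos : (0 : ℝ) < (k.2 : ℝ) + 1 := by positivity
  have hk3 : (n : ℝ) ≤ (k.2 : ℝ) := by exact_mod_cast hk2
  rw [Real.dist_eq]
  have e1 : m k (fun v => ip c (π v w)) - ip c (PF π w) = ip c (x - PF π w) := by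
    rw [ip_sub_right, hxb c]
  rw [e1]
  refine (abs_ip_le _ _).trans_lt ((mul_le_mul_of_nonneg_left hxn (norm_nonneg c)).trans_lt ?_)
  rw [mul_one_div, div_lt_iff₀ hpos]
  have h5 : ‖c‖ < n * ε := (div_lt_iff₀ hε).1 hn
  nlinarith

end

end Pool.Agent.W837.KKS
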